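import Pool.Agent.N926.Pasc.Main

set_option autoImplicit false

namespace Pool.Agent.Results.MP_9fb898_nt.EvenIndex

open Polynomial

/-- `B(n,k) = C(n, ⌊(n-k)/2⌋)` for `0 ≤ k ≤ n` -/
def B (n k : ℕ) : ℕ := n.choose ((n - k) / 2)

/-- the `n`-th Pascalian polynomial `∑_{k=0}^n B(n,k) z^{n-k}` in `ℤ[z]` -/
noncomputable def P (n : ℕ) : ℤ[X] :=
  ∑ k ∈ Finset.range (n + 1), C ((B n k : ℕ) : ℤ) * X ^ (n - k)

/-- for every even `n ≥ 2` the polynomial `P_n` is irreducible over `ℚ` -/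
theorem result : ∀ n : ℕ, 2 ≤ n → Even n → Irreducible ((P n).map (Int.castRingHom ℚ)) :=
  Pool.Agent.N926.Pasc.main

end Pool.Agent.Results.MP_9fb898_nt.EvenIndex
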